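import Pool.Agent.H25.EE.TargetsB

/-! Row GAM of the board `ee_modules`: product of the tails of the exponential series. -/

set_option autoImplicit false

namespace Pool.Agent.H42.EE5.GAM

open Pool.Agent.H25.EE Filter Finset

private theorem evlog : ∃ Y : ℝ, 2 ≤ Y ∧ ∀ y : ℝ, Y ≤ y →
    2 * y ^ (2 / 3 : ℝ) * Real.log y ≤ y - 1 := by
  have h1 := (isLittleO_log_rpow_atTop (r := 1 / 3) (by norm_num)).bound
    (c := 1 / 4) (by positivity)
  obtain ⟨Y, hY⟩ := eventually_atTop.1 h1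
  refine ⟨max Y 2, le_max_right _ _, fun y hy => ?_⟩
  have hy1 := hY y ((le_max_left _ _).trans hy)
  have hy2 : 2 ≤ y := (le_max_right _ _).trans hy
  have hy0 : 0 < y := by linarith
  rw [Real.norm_of_nonneg (Real.log_nonneg (by linarith)),
    Real.norm_of_nonneg (Real.rpow_nonneg hy0.le _)] at hy1
  have h5 : y ^ (2 / 3 : ℝ) * y ^ (1 / 3 : ℝ) = y := by
    rw [← Real.rpow_add hy0]
    norm_num
  calc 2 * y ^ (2 / 3 : ℝ) * Real.log y
      ≤ 2 * y ^ (2 / 3 : ℝ) * (1 / 4 * y ^ (1 / 3 : ℝ)) := by gcongr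
    _ = (y ^ (2 / 3 : ℝ) * y ^ (1 / 3 : ℝ)) / 2 := by ring
    _ ≤ y - 1 := by rw [h5]; linarith

private theorem polfac : ∃ J0 : ℕ, ∀ J ≥ J0, ∀ n : ℕ, J ^ 3 ≤ n →
    ((n : ℝ) + 1) ^ (2 * J ^ 2) ≤ Real.exp n := by
  obtain ⟨Y, hY2, hY⟩ := evlog
  refine ⟨⌈Y⌉₊ + 1, fun J hJ n hn => ?_⟩
  have h1 : Y ≤ J := by
    have h2 : (⌈Y⌉₊ : ℝ) ≤ J := by exact_mod_cast (Nat.le_of_succ_le hJ)
    exact (Nat.le_ceil _).trans h2
  have hJ1 : (1 : ℝ) ≤ J := by linarith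
  have hJ0 : (0 : ℝ) ≤ J := by linarith
  have h2 : (J : ℝ) ^ 3 ≤ n := by exact_mod_cast hn
  have h3 : (J : ℝ) ≤ (J : ℝ) ^ 3 := by
    have := pow_le_pow_right₀ hJ1 (show 1 ≤ 3 by norm_num)
    simpa using this
  have h4 : Y ≤ n := by linarith
  have h5 := hY ((n : ℝ) + 1) (by linarith)
  have hn0 : (0 : ℝ) < (n : ℝ) + 1 := by positivity
  have h6 : (J : ℝ) ^ 2 ≤ ((n : ℝ) + 1) ^ (2 / 3 : ℝ) := by
    have h7 : (J : ℝ) ^ 2 = ((J : ℝ) ^ 3) ^ (2 / 3 : ℝ) := by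
      rw [← Real.rpow_natCast, ← Real.rpow_natCast, ← Real.rpow_mul hJ0]
      norm_num
    rw [h7]
    exact Real.rpow_le_rpow (by positivity) (by linarith) (by norm_num)
  have h7 : 0 ≤ Real.log ((n : ℝ) + 1) := Real.log_nonneg (by linarith)
  rw [← Real.rpow_natCast, Real.rpow_def_of_pos hn0, Real.exp_le_exp]
  push_cast
  calc Real.log ((n : ℝ) + 1) * (2 * (J : ℝ) ^ 2)
      = 2 * (J : ℝ) ^ 2 * Real.log ((n : ℝ) + 1) := by ring
    _ ≤ 2 * ((n : ℝ) + 1) ^ (2 / 3 : ℝ) * Real.log ((n : ℝ) + 1) := by gcongr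
    _ ≤ n := by linarith

private theorem sumId (m : ℕ) : ∑ l ∈ range m, (l : ℝ) = (m : ℝ) * ((m : ℝ) - 1) / 2 := by
  induction m with
  | zero => simp
  | succ k ih =>
    rw [sum_range_succ, ih]
    push_cast
    ring

theorem pf_GAM : T_GAM := by
  intro C0 ρ hC0 hρ
  obtain ⟨J0, hJ0⟩ := polfac
  set K : ℝ := 2 * Real.exp 1 ^ 3 * ρ ^ 2 with hK
  have hK0 : 0 < K := by positivity
  have he1 : (1 : ℝ) ≤ Real.exp 1 := Real.one_le_exp (by norm_num)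
  have hK1 : 1 ≤ K := by
    have h1 : (1 : ℝ) ≤ Real.exp 1 ^ 3 := one_le_pow₀ he1
    have h2 : (1 : ℝ) ≤ ρ ^ 2 := one_le_pow₀ hρ
    rw [hK]
    nlinarith
  have hlK : 0 ≤ Real.log K := Real.log_nonneg hK1
  set E : ℝ := Real.log K + 3 + (C0 + 1 + Real.exp 1 * ρ ^ 2) with hE
  have hE0 : 0 ≤ E := by positivity
  refine ⟨1 + E, max J0 (⌈K⌉₊ + ⌈C0⌉₊ + 1), fun J hJ => ?_⟩
  have hJJ0 : J0 ≤ J := (le_max_left _ _).trans hJ
  have hJ2 : ⌈K⌉₊ + ⌈C0⌉₊ + 1 ≤ J := (le_max_right _ _).trans hJ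
  have hJK : K ≤ J := by
    have h2 : (⌈K⌉₊ : ℝ) ≤ J := by exact_mod_cast (by omega : ⌈K⌉₊ ≤ J)
    exact (Nat.le_ceil _).trans h2
  have hJC : C0 ≤ J := by
    have h2 : (⌈C0⌉₊ : ℝ) ≤ J := by exact_mod_cast (by omega : ⌈C0⌉₊ ≤ J)
    exact (Nat.le_ceil _).trans h2
  have hJ1 : 1 ≤ J := by omega
  have hJ1' : (1 : ℝ) ≤ J := by exact_mod_cast hJ1
  have hJ0' : (0 : ℝ) < J := by linarith
  have hlJ : 0 ≤ Real.log J := Real.log_nonneg hJ1'
  have hlJ2 : Real.log J ≤ J := (Real.log_le_sub_one_of_pos hJ0').trans (by linarith)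
  have hJ23 : (J : ℝ) ^ 2 ≤ (J : ℝ) ^ 3 := pow_le_pow_right₀ hJ1' (by norm_num)
  have hJ34 : (J : ℝ) ^ 3 ≤ (J : ℝ) ^ 4 := pow_le_pow_right₀ hJ1' (by norm_num)
  set x : ℝ := Real.exp 1 * (ρ * J) ^ 2 with hx
  have hx0 : 0 < x := by positivity
  have hg0 : ∀ n, 0 ≤ gt C0 ρ J n := by
    intro n
    unfold gt
    positivity
  have hexp : ∀ k : ℕ, Real.exp ((k : ℕ) : ℝ) = Real.exp 1 ^ k := by
    intro k
    rw [← Real.exp_nat_mul, mul_one]
  -- (1) the total sum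
  have hall : ∀ n : ℕ, gt C0 ρ J n ≤
      Real.exp (C0 * (J : ℝ) ^ 2 + (J : ℝ) ^ 3) * (x ^ n / (n.factorial : ℝ)) := by
    intro n
    have h1 : ((n : ℝ) + 1) ^ (2 * J ^ 2) ≤ Real.exp ((J : ℝ) ^ 3) * Real.exp n := by
      rcases le_total (J ^ 3) n with h | h
      · refine (hJ0 J hJJ0 n h).trans ?_
        have : 1 ≤ Real.exp ((J : ℝ) ^ 3) := Real.one_le_exp (by positivity)
        nlinarith [Real.exp_pos (n : ℝ)]
      · have h2 := hJ0 J hJJ0 (J ^ 3) le_rfl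
        have h3 : ((n : ℝ) + 1) ^ (2 * J ^ 2) ≤ (((J ^ 3 : ℕ) : ℝ) + 1) ^ (2 * J ^ 2) := by
          have : (n : ℝ) ≤ ((J ^ 3 : ℕ) : ℝ) := by exact_mod_cast h
          gcongr
        refine (h3.trans h2).trans ?_
        push_cast
        have : 1 ≤ Real.exp (n : ℝ) := Real.one_le_exp (by positivity)
        nlinarith [Real.exp_pos ((J : ℝ) ^ 3)]
    unfold gt
    rw [pow_mul (ρ * J), hx, mul_pow (Real.exp 1), Real.exp_add]
    rw [hexp] at h1
    calc Real.exp (C0 * (J : ℝ) ^ 2) * ((n : ℝ) + 1) ^ (2 * J ^ 2) * ((ρ * J) ^ 2) ^ n /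
          (n.factorial : ℝ)
        ≤ Real.exp (C0 * (J : ℝ) ^ 2) * (Real.exp ((J : ℝ) ^ 3) * Real.exp 1 ^ n) *
          ((ρ * J) ^ 2) ^ n / (n.factorial : ℝ) := by gcongr
      _ = _ := by ring
  have hs0 : Summable fun n : ℕ => x ^ n / (n.factorial : ℝ) :=
    Real.summable_pow_div_factorial x
  have hsum : Summable (gt C0 ρ J) :=
    Summable.of_nonneg_of_le hg0 hall (hs0.mul_left _)
  have hsumk : ∀ k, Summable fun n => gt C0 ρ J (n + k) := fun k =>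
    (summable_nat_add_iff k).2 hsum
  have htot : ∑' n, gt C0 ρ J n ≤
      Real.exp ((C0 + 1 + Real.exp 1 * ρ ^ 2) * (J : ℝ) ^ 3) := by
    have h1 : ∑' n, gt C0 ρ J n ≤
        Real.exp (C0 * (J : ℝ) ^ 2 + (J : ℝ) ^ 3) * Real.exp x := by
      refine (hsum.tsum_le_tsum hall (hs0.mul_left _)).trans ?_
      rw [tsum_mul_left]
      have h2 : ∑' n : ℕ, x ^ n / (n.factorial : ℝ) = Real.exp x := by
        rw [Real.exp_eq_exp_ℝ, NormedSpace.exp_eq_tsum_div]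
      rw [h2]
    refine h1.trans ?_
    rw [← Real.exp_add, Real.exp_le_exp, hx]
    have h2 : C0 * (J : ℝ) ^ 2 ≤ C0 * (J : ℝ) ^ 3 := by gcongr
    have h3 : Real.exp 1 * (ρ * J) ^ 2 ≤ Real.exp 1 * ρ ^ 2 * (J : ℝ) ^ 3 := by
      rw [mul_pow, ← mul_assoc]
      gcongr
    linarith
  have htail1 : ∀ l : ℕ, ∑' n, gt C0 ρ J (n + l) ≤ ∑' n, gt C0 ρ J n := by
    intro l
    rw [← hsum.sum_add_tsum_nat_add l]
    have : 0 ≤ ∑ i ∈ range l, gt C0 ρ J i := sum_nonneg fun i _ => hg0 i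
    linarith
  have htail0 : ∀ l : ℕ, 0 ≤ ∑' n, gt C0 ρ J (n + l) := fun l => tsum_nonneg fun n => hg0 _
  -- (2) the tails
  have hmain : ∀ k : ℕ, J ^ 3 ≤ k → ∀ n,
      gt C0 ρ J (n + k) ≤ Real.exp 1 ^ k * (x ^ k / (k.factorial : ℝ)) * (1 / 2) ^ n := by
    intro k hk n
    have hk0 : 0 < k := lt_of_lt_of_le (by positivity) hk
    have hkR : (0 : ℝ) < k := by exact_mod_cast hk0
    have hk' : (J : ℝ) ^ 3 ≤ k := by exact_mod_cast hk
    have h1 := hJ0 J hJJ0 (n + k) (by omega)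
    have h2 : gt C0 ρ J (n + k) ≤ Real.exp 1 ^ k * (x ^ (n + k) / ((n + k).factorial : ℝ)) := by
      unfold gt
      rw [pow_mul (ρ * J), hx, mul_pow (Real.exp 1)]
      rw [hexp] at h1
      have h3 : Real.exp (C0 * (J : ℝ) ^ 2) ≤ Real.exp 1 ^ k := by
        rw [← hexp, Real.exp_le_exp]
        calc C0 * (J : ℝ) ^ 2 ≤ J * (J : ℝ) ^ 2 := by gcongr
          _ = (J : ℝ) ^ 3 := by ring
          _ ≤ k := hk'
      calc Real.exp (C0 * (J : ℝ) ^ 2) * (((n + k : ℕ) : ℝ) + 1) ^ (2 * J ^ 2) *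
            ((ρ * J) ^ 2) ^ (n + k) / ((n + k).factorial : ℝ)
          ≤ Real.exp 1 ^ k * Real.exp 1 ^ (n + k) *
            ((ρ * J) ^ 2) ^ (n + k) / ((n + k).factorial : ℝ) := by gcongr
        _ = _ := by ring
    refine h2.trans ?_
    have h4 : ((k.factorial : ℝ) * (k : ℝ) ^ n) ≤ ((n + k).factorial : ℝ) := by
      have h5 := Nat.factorial_mul_pow_le_factorial (m := k) (n := n)
      have h6 : k.factorial * k ^ n ≤ (n + k).factorial := by
        rw [add_comm n k]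
        refine le_trans ?_ h5
        exact Nat.mul_le_mul_left _ (Nat.pow_le_pow_left (Nat.le_succ k) n)
      exact_mod_cast h6
    have hxk : x / k ≤ 1 / 2 := by
      rw [div_le_div_iff₀ hkR (by norm_num)]
      have h5 : 2 * x ≤ (J : ℝ) ^ 3 := by
        have h6 : 2 * x = 2 * Real.exp 1 * ρ ^ 2 * (J : ℝ) ^ 2 := by
          rw [hx]
          ring
        have h7 : 2 * Real.exp 1 * ρ ^ 2 ≤ (J : ℝ) := by
          have h8 : 2 * Real.exp 1 * ρ ^ 2 ≤ K := by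
            rw [hK]
            have h10 : Real.exp 1 ≤ Real.exp 1 ^ 3 := by
              have h11 := pow_le_pow_right₀ he1 (show 1 ≤ 3 by norm_num)
              rwa [pow_one] at h11
            gcongr
          linarith
        calc 2 * x = 2 * Real.exp 1 * ρ ^ 2 * (J : ℝ) ^ 2 := h6
          _ ≤ (J : ℝ) * (J : ℝ) ^ 2 := by gcongr
          _ = (J : ℝ) ^ 3 := by ring
      linarith
    calc Real.exp 1 ^ k * (x ^ (n + k) / ((n + k).factorial : ℝ))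
        ≤ Real.exp 1 ^ k * (x ^ (n + k) / ((k.factorial : ℝ) * (k : ℝ) ^ n)) := by gcongr
      _ = Real.exp 1 ^ k * (x ^ k / (k.factorial : ℝ)) * (x / k) ^ n := by
          rw [pow_add, div_pow]
          field_simp
      _ ≤ Real.exp 1 ^ k * (x ^ k / (k.factorial : ℝ)) * (1 / 2) ^ n := by gcongr
  have htail2 : ∀ k : ℕ, J ^ 3 ≤ k → k ≤ J ^ 4 → ∑' n, gt C0 ρ J (n + k) ≤
      Real.exp (-(2 * k * Real.log J) + (Real.log K + 1) * (J : ℝ) ^ 4) := by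
    intro k hk hk4
    have hk0 : 0 < k := lt_of_lt_of_le (by positivity) hk
    have hkR : (0 : ℝ) < k := by exact_mod_cast hk0
    have hk4' : (k : ℝ) ≤ (J : ℝ) ^ 4 := by exact_mod_cast hk4
    have h1 : ∑' n, gt C0 ρ J (n + k) ≤ Real.exp 1 ^ k * (x ^ k / (k.factorial : ℝ)) * 2 := by
      refine ((hsumk k).tsum_le_tsum (hmain k hk)
        ((summable_geometric_two).mul_left _)).trans ?_
      rw [tsum_mul_left, tsum_geometric_two]
    refine h1.trans ?_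
    have h2 : (k : ℝ) ^ k / (k.factorial : ℝ) ≤ Real.exp 1 ^ k := by
      have := Real.pow_div_factorial_le_exp (k : ℝ) (by positivity) k
      rwa [← Real.exp_nat_mul, mul_one]
    have h3 : Real.exp 1 ^ k * (x ^ k / (k.factorial : ℝ)) * 2 ≤
        (2 * (Real.exp 1 ^ 2 * x / k)) ^ k := by
      have h4 : x ^ k / (k.factorial : ℝ) = (x / k) ^ k * ((k : ℝ) ^ k / (k.factorial : ℝ)) := by
        rw [div_pow]
        field_simp
      rw [h4, mul_pow, mul_comm _ (2 : ℝ)]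
      have h5 : (2 : ℝ) ≤ 2 ^ k := by
        have := pow_le_pow_right₀ (show (1 : ℝ) ≤ 2 by norm_num) (show 1 ≤ k from hk0)
        simpa using this
      have h6 : Real.exp 1 ^ k * ((x / k) ^ k * ((k : ℝ) ^ k / (k.factorial : ℝ))) ≤
          (Real.exp 1 ^ 2 * x / k) ^ k := by
        calc Real.exp 1 ^ k * ((x / k) ^ k * ((k : ℝ) ^ k / (k.factorial : ℝ)))
            ≤ Real.exp 1 ^ k * ((x / k) ^ k * Real.exp 1 ^ k) := by gcongr
          _ = (Real.exp 1 ^ 2 * x / k) ^ k := by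
              rw [← mul_pow, ← mul_pow]
              congr 1
              ring
      gcongr
    refine h3.trans ?_
    have h4 : 2 * (Real.exp 1 ^ 2 * x / k) =
        Real.exp (Real.log K + 2 * Real.log J - Real.log k) := by
      have h5 : Real.exp (2 * Real.log J) = (J : ℝ) ^ 2 := by
        rw [two_mul, Real.exp_add, Real.exp_log hJ0', pow_two]
      rw [Real.exp_sub, Real.exp_add, Real.exp_log hK0, h5, Real.exp_log hkR, hK, hx]
      ring
    rw [h4, ← Real.exp_nat_mul, Real.exp_le_exp]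
    have h5 : (k : ℝ) * (4 * Real.log J - Real.log k) ≤ (J : ℝ) ^ 4 := by
      have h6 : 4 * Real.log J - Real.log k = Real.log ((J : ℝ) ^ 4 / k) := by
        rw [Real.log_div (by positivity) hkR.ne', Real.log_pow]
        push_cast
        ring
      rw [h6]
      have h7 : Real.log ((J : ℝ) ^ 4 / k) ≤ (J : ℝ) ^ 4 / k :=
        (Real.log_le_sub_one_of_pos (by positivity)).trans (by linarith)
      calc (k : ℝ) * Real.log ((J : ℝ) ^ 4 / k) ≤ k * ((J : ℝ) ^ 4 / k) := by gcongr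
        _ = (J : ℝ) ^ 4 := by field_simp
    have h6 : (k : ℝ) * Real.log K ≤ (J : ℝ) ^ 4 * Real.log K := by gcongr
    nlinarith
  -- (3) one bound for all the tails
  have htail : ∀ l : ℕ, l ≤ J ^ 4 → ∑' n, gt C0 ρ J (n + l) ≤
      Real.exp (-(2 * Real.log J) * l + E * (J : ℝ) ^ 4) := by
    intro l hl
    rcases le_total (J ^ 3) l with h | h
    · refine (htail2 l h hl).trans ?_
      rw [Real.exp_le_exp]
      have h1 : (Real.log K + 1) * (J : ℝ) ^ 4 ≤ E * (J : ℝ) ^ 4 := by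
        gcongr
        rw [hE]
        have : 0 ≤ C0 + 1 + Real.exp 1 * ρ ^ 2 := by positivity
        linarith
      linarith
    · refine ((htail1 l).trans htot).trans ?_
      rw [Real.exp_le_exp]
      have hl' : (l : ℝ) ≤ (J : ℝ) ^ 3 := by exact_mod_cast h
      have h1 : 2 * Real.log J * l ≤ 2 * (J : ℝ) ^ 4 := by
        calc 2 * Real.log J * l ≤ 2 * J * (J : ℝ) ^ 3 := by gcongr
          _ = 2 * (J : ℝ) ^ 4 := by ring
      have h2 : (C0 + 1 + Real.exp 1 * ρ ^ 2) * (J : ℝ) ^ 3 ≤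
          (C0 + 1 + Real.exp 1 * ρ ^ 2) * (J : ℝ) ^ 4 := by gcongr
      have h3 : 0 ≤ Real.log K * (J : ℝ) ^ 4 := by positivity
      have h4 : 0 ≤ (J : ℝ) ^ 4 := by positivity
      rw [hE]
      nlinarith
  refine ⟨hsum, fun m hm => ?_⟩
  have hm' : (m : ℝ) ≤ (J : ℝ) ^ 4 := by exact_mod_cast hm
  have h1 : ∏ l ∈ range m, (∑' n, gt C0 ρ J (n + l)) ≤
      ∏ l ∈ range m, Real.exp (-(2 * Real.log J) * l + E * (J : ℝ) ^ 4) := by
    refine prod_le_prod (fun l _ => htail0 l) fun l hl => htail l ?_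
    exact (mem_range.1 hl).le.trans hm
  refine h1.trans ?_
  rw [← Real.exp_sum, Real.exp_le_exp, sum_add_distrib, ← mul_sum, sumId, sum_const, card_range,
    nsmul_eq_mul]
  have h2 : (m : ℝ) * Real.log J ≤ (J : ℝ) ^ 8 := by
    calc (m : ℝ) * Real.log J ≤ (J : ℝ) ^ 4 * J := by gcongr
      _ = (J : ℝ) ^ 5 := by ring
      _ ≤ (J : ℝ) ^ 8 := pow_le_pow_right₀ hJ1' (by norm_num)
  have h3 : (m : ℝ) * (E * (J : ℝ) ^ 4) ≤ E * (J : ℝ) ^ 8 := by
    calc (m : ℝ) * (E * (J : ℝ) ^ 4) ≤ (J : ℝ) ^ 4 * (E * (J : ℝ) ^ 4) := by gcongr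
      _ = E * (J : ℝ) ^ 8 := by ring
  nlinarith

end Pool.Agent.H42.EE5.GAM
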